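import Pool.Agent.H37.DEN.Targets

/-!
# Row CYC of den_modules
-/

set_option autoImplicit false

open MvPolynomial Filter
open Pool.Agent.H18.HIT Pool.Agent.H8.TD Pool.Agent.H37.DEN

namespace Pool.Agent.H76.DEN

theorem cyc_tf {Λ : Type} [AddCommGroup Λ] [LinearOrder Λ] [IsOrderedAddMonoid Λ] {n : ℤ} {x : Λ}
    (h : n • x = 0) (hn : n ≠ 0) : x = 0 := by
  rcases smul_eq_zero.1 h with h | h
  · exact absurd h hn
  · exact h

theorem pf_CYC : T_CYC := by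
  classical
  intro Λ _ _ _ Γ e A₀ γ δ he hA hγ hδ hδ0 H1 H2
  have he0 : (e : ℤ) ≠ 0 := by positivity
  have hA0 : (A₀ : ℤ) ≠ 0 := by positivity
  have hγ0 : γ ≠ 0 := by
    rintro rfl
    have h1 := H1 1 0 (by simp)
    have h2 : e ∣ 1 := by exact_mod_cast h1
    have := Nat.le_of_dvd one_pos h2
    omega
  obtain ⟨j₁, m₁, h1⟩ := H2 γ hγ
  have hAe : ∀ j : ℕ, (A₀ : ℤ) * (e : ℤ) ^ j ≠ 0 := fun j => mul_ne_zero hA0 (pow_ne_zero _ he0)
  have hm₁ : m₁ ≠ 0 := by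
    rintro rfl
    rw [zero_smul] at h1
    exact hγ0 (cyc_tf h1 (hAe j₁))
  -- multiples
  have key : ∀ (n : ℤ) (γ' : Λ), γ' ∈ Γ → γ = n • γ' → n ∣ m₁ := by
    intro n γ' hγ' hn
    have hcop : IsCoprime n (e : ℤ) := by
      rw [Int.isCoprime_iff_gcd_eq_one]
      obtain ⟨n', hn'⟩ := Int.gcd_dvd_left n (e : ℤ)
      obtain ⟨e', he'⟩ := Int.gcd_dvd_right n (e : ℤ)
      have he'0 : e' ≠ 0 := by
        rintro rfl
        rw [mul_zero] at he'
        exact he0 he'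
      have h2 : e' • γ = (e : ℤ) • (n' • γ') := by
        rw [hn, smul_smul, smul_smul]
        congr 1
        calc e' * n = e' * ((Int.gcd n e : ℤ) * n') := by rw [← hn']
          _ = ((Int.gcd n e : ℤ) * e') * n' := by ring
          _ = (e : ℤ) * n' := by rw [← he']
      have h3 := H1 e' _ h2
      have h4 : (Int.gcd n (e : ℤ) : ℤ) * e' ∣ 1 * e' := by
        rw [one_mul, ← he']
        exact h3
      have h5 := Int.dvd_of_mul_dvd_mul_right he'0 h4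
      have h6 : (Int.gcd n (e : ℤ)) ∣ 1 := by exact_mod_cast h5
      exact Nat.dvd_one.1 h6
    obtain ⟨j₂, m₂, h2⟩ := H2 γ' hγ'
    have h3 : ((e : ℤ) ^ j₂ * m₁) • δ = (n * ((e : ℤ) ^ j₁ * m₂)) • δ := by
      calc ((e : ℤ) ^ j₂ * m₁) • δ = (e : ℤ) ^ j₂ • (m₁ • δ) := by rw [smul_smul]
        _ = (e : ℤ) ^ j₂ • (((A₀ : ℤ) * (e : ℤ) ^ j₁) • γ) := by rw [h1]
        _ = (e : ℤ) ^ j₂ • (((A₀ : ℤ) * (e : ℤ) ^ j₁) • (n • γ')) := by rw [← hn]
        _ = (n * (e : ℤ) ^ j₁) • (((A₀ : ℤ) * (e : ℤ) ^ j₂) • γ') := by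
          rw [smul_smul, smul_smul, smul_smul]
          congr 1
          ring
        _ = (n * (e : ℤ) ^ j₁) • (m₂ • δ) := by rw [h2]
        _ = (n * ((e : ℤ) ^ j₁ * m₂)) • δ := by rw [smul_smul, mul_assoc]
    have h4 : (e : ℤ) ^ j₂ * m₁ = n * ((e : ℤ) ^ j₁ * m₂) := by
      have h5 : ((e : ℤ) ^ j₂ * m₁ - n * ((e : ℤ) ^ j₁ * m₂)) • δ = 0 := by
        rw [sub_smul, h3, sub_self]
      by_contra hne
      exact hδ0 (cyc_tf h5 (sub_ne_zero.2 hne))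
    have h5 : n ∣ (e : ℤ) ^ j₂ * m₁ := ⟨_, h4⟩
    exact (hcop.pow_right).dvd_of_dvd_mul_left h5
  -- the largest denominator
  obtain ⟨N, hN1, γ', hγ', hNγ, hmax⟩ : ∃ N : ℕ, 1 ≤ N ∧ ∃ γ' ∈ Γ, γ = (N : ℤ) • γ' ∧
      ∀ (n : ℕ) (x : Λ), x ∈ Γ → γ = (n : ℤ) • x → n ≤ N := by
    have hb : ∀ (n : ℕ), (∃ x ∈ Γ, γ = (n : ℤ) • x) → n ≤ m₁.natAbs := by
      rintro n ⟨x, hx, hnx⟩
      have h2 := key n x hx hnx
      exact Nat.le_of_dvd (Int.natAbs_pos.2 hm₁) (Int.natCast_dvd.1 h2)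
    have hP1 : ∃ x ∈ Γ, γ = ((1 : ℕ) : ℤ) • x := ⟨γ, hγ, by simp⟩
    obtain ⟨x, hx, hNx⟩ := Nat.findGreatest_spec (P := fun n : ℕ => ∃ x ∈ Γ, γ = (n : ℤ) • x)
      (hb 1 hP1) hP1
    refine ⟨_, Nat.le_findGreatest (hb 1 hP1) hP1, x, hx, hNx, ?_⟩
    intro n y hy hny
    exact Nat.le_findGreatest (hb n ⟨y, hy, hny⟩) ⟨y, hy, hny⟩
  have hγ'0 : γ' ≠ 0 := by
    rintro rfl
    rw [smul_zero] at hNγ
    exact hγ0 hNγ
  -- all elements are multiples of `γ'`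
  have hall : ∀ x ∈ Γ, ∃ a : ℤ, x = a • γ' := by
    intro x hx
    obtain ⟨j, m, h2⟩ := H2 x hx
    obtain ⟨j', m', h3⟩ := H2 γ' hγ'
    have hm' : m' ≠ 0 := by
      rintro rfl
      rw [zero_smul] at h3
      exact hγ'0 (cyc_tf h3 (hAe j'))
    obtain ⟨a, ha⟩ : ∃ a : ℤ, a = m' * ((A₀ : ℤ) * (e : ℤ) ^ j) := ⟨_, rfl⟩
    obtain ⟨b, hb⟩ : ∃ b : ℤ, b = m * ((A₀ : ℤ) * (e : ℤ) ^ j') := ⟨_, rfl⟩
    have ha0 : a ≠ 0 := by rw [ha]; exact mul_ne_zero hm' (hAe j)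
    have hab : a • x = b • γ' := by
      rw [ha, hb, mul_smul m', h2, mul_smul m, h3, smul_smul, smul_smul, mul_comm]
    have hg0 : (Int.gcd a b : ℤ) ≠ 0 := by
      intro h
      have h4 : Int.gcd a b = 0 := by exact_mod_cast h
      exact ha0 (Int.gcd_eq_zero_iff.1 h4).1
    obtain ⟨a', ha'⟩ := Int.gcd_dvd_left a b
    obtain ⟨b', hb'⟩ := Int.gcd_dvd_right a b
    have h4 : a' • x = b' • γ' := by
      have h5 : (Int.gcd a b : ℤ) • (a' • x - b' • γ') = 0 := by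
        rw [smul_sub, smul_smul, smul_smul, ← ha', ← hb', hab, sub_self]
      exact sub_eq_zero.1 (cyc_tf h5 hg0)
    have ha'0 : a' ≠ 0 := by
      rintro rfl
      rw [mul_zero] at ha'
      exact ha0 ha'
    obtain ⟨s, t, hst⟩ : ∃ s t : ℤ, s * a' + t * b' = 1 := by
      have h5 : (Int.gcd a b : ℤ) = a * Int.gcdA a b + b * Int.gcdB a b := Int.gcd_eq_gcd_ab a b
      refine ⟨Int.gcdA a b, Int.gcdB a b, ?_⟩
      have h6 : (Int.gcd a b : ℤ) * (Int.gcdA a b * a' + Int.gcdB a b * b') =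
          (Int.gcd a b : ℤ) * 1 := by
        calc (Int.gcd a b : ℤ) * (Int.gcdA a b * a' + Int.gcdB a b * b')
            = ((Int.gcd a b : ℤ) * a') * Int.gcdA a b +
              ((Int.gcd a b : ℤ) * b') * Int.gcdB a b := by ring
          _ = a * Int.gcdA a b + b * Int.gcdB a b := by rw [← ha', ← hb']
          _ = (Int.gcd a b : ℤ) * 1 := by rw [← h5, mul_one]
      exact mul_left_cancel₀ hg0 h6
    obtain ⟨γ'', hγ''⟩ : ∃ γ'' : Λ, γ'' = s • γ' + t • x := ⟨_, rfl⟩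
    have hγ''m : γ'' ∈ Γ := by
      rw [hγ'']
      exact Γ.add_mem (Γ.zsmul_mem hγ' s) (Γ.zsmul_mem hx t)
    have h5 : a' • γ'' = γ' := by
      rw [hγ'', smul_add, smul_comm a' t x, h4, smul_smul, smul_smul, ← add_smul]
      have : a' * s + t * b' = 1 := by rw [mul_comm a' s]; exact hst
      rw [this, one_smul]
    have h6 : b' • γ'' = x := by
      rw [hγ'', smul_add, smul_comm b' s γ', ← h4, smul_smul, smul_smul, ← add_smul]
      have : s * a' + b' * t = 1 := by rw [mul_comm b' t]; exact hst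
      rw [this, one_smul]
    have h7 : N * a'.natAbs ≤ N := by
      rcases Int.natAbs_eq a' with h | h
      · refine hmax _ γ'' hγ''m ?_
        rw [hNγ, ← h5, smul_smul]
        congr 1
        push_cast
        rw [← Int.natCast_natAbs]
        rw [← h]
      · refine hmax _ (-γ'') (Γ.neg_mem hγ''m) ?_
        rw [hNγ, ← h5, smul_smul, smul_neg, ← neg_smul]
        congr 1
        push_cast
        rw [← Int.natCast_natAbs]
        have h8 : ((a'.natAbs : ℕ) : ℤ) = - a' := by rw [h]; simp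
        rw [h8]
        ring
    have h8 : a'.natAbs = 1 := by
      have h9 : 0 < a'.natAbs := Int.natAbs_pos.2 ha'0
      have h10 : N * a'.natAbs ≤ N * 1 := by rw [mul_one]; exact h7
      have h11 := Nat.le_of_mul_le_mul_left h10 (by omega)
      omega
    have h9 : a' * a' = 1 := by
      rcases Int.natAbs_eq_iff.1 h8 with h | h <;> rw [h] <;> norm_num
    refine ⟨b' * a', ?_⟩
    rw [← h5, smul_smul, mul_assoc, h9, mul_one, h6]
  rcases lt_trichotomy γ' 0 with h | h | h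
  · refine ⟨-γ', Γ.neg_mem hγ', neg_pos.2 h, fun x hx => ?_⟩
    obtain ⟨a, ha⟩ := hall x hx
    exact ⟨-a, by rw [ha, neg_smul_neg]⟩
  · exact absurd h hγ'0
  · exact ⟨γ', hγ', h, hall⟩

end Pool.Agent.H76.DEN
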