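import Pool.Agent.H37.DEN.Targets

/-!
# Rows VKP and GNB of den_modules
-/

set_option autoImplicit false

open MvPolynomial Filter
open Pool.Agent.H18.HIT Pool.Agent.H8.TD Pool.Agent.H37.DEN

namespace Pool.Agent.H76.DEN

variable {k : Type} [Field k] {τ : K3 k →ₐ[k] K3 k} {e : ℕ} {Λ : Type} [AddCommGroup Λ]
  [LinearOrder Λ] [IsOrderedAddMonoid Λ] {V : K3 k → Λ}

theorem vt_one (h : Vt τ e V) : V 1 = 0 := by
  have h1 := h.con 1 one_ne_zero
  rwa [map_one] at h1

theorem vt_pow (h : Vt τ e V) {x : K3 k} (hx : x ≠ 0) (n : ℕ) : V (x ^ n) = (n : ℤ) • V x := by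
  induction n with
  | zero => simp [vt_one h]
  | succ n ih =>
    rw [pow_succ, h.mul _ _ (pow_ne_zero n hx) hx, ih]
    push_cast
    rw [add_smul, one_smul]

/-- the value of a polynomial in two elements with independent values -/
theorem vkp_val (hSUM : T_SUM) (h : Vt τ e V) {P Q : K3 k} (hP : P ≠ 0) (hQ : Q ≠ 0)
    (hind : ∀ a b : ℤ, a • V P + b • V Q = 0 → a = 0 ∧ b = 0)
    (F : MvPolynomial (Fin 2) k) (hF : F ≠ 0) :
    aeval ![P, Q] F ≠ 0 ∧ ∃ a b : ℤ, V (aeval ![P, Q] F) = a • V P + b • V Q := by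
  obtain ⟨-, -, h3⟩ := hSUM k τ e Λ V h
  have he : aeval ![P, Q] F = ∑ m ∈ F.support,
      algebraMap k (K3 k) (coeff m F) * (P ^ (m 0) * Q ^ (m 1)) := by
    rw [aeval_def, eval₂_eq']
    refine Finset.sum_congr rfl fun m _ => ?_
    rw [Fin.prod_univ_two]
    rfl
  have hne : ∀ m ∈ F.support, algebraMap k (K3 k) (coeff m F) * (P ^ (m 0) * Q ^ (m 1)) ≠ 0 := by
    intro m hm
    refine mul_ne_zero ?_ (mul_ne_zero (pow_ne_zero _ hP) (pow_ne_zero _ hQ))
    intro h0
    exact (mem_support_iff.1 hm) ((map_eq_zero _).1 h0)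
  have hV : ∀ m ∈ F.support, V (algebraMap k (K3 k) (coeff m F) * (P ^ (m 0) * Q ^ (m 1))) =
      ((m 0 : ℕ) : ℤ) • V P + ((m 1 : ℕ) : ℤ) • V Q := by
    intro m hm
    have hc : algebraMap k (K3 k) (coeff m F) ≠ 0 := left_ne_zero_of_mul (hne m hm)
    rw [h.mul _ _ hc (mul_ne_zero (pow_ne_zero _ hP) (pow_ne_zero _ hQ)),
      h.con _ (mem_support_iff.1 hm), h.mul _ _ (pow_ne_zero _ hP) (pow_ne_zero _ hQ),
      vt_pow h hP, vt_pow h hQ, zero_add]
  obtain ⟨g1, m, hm, g2, -⟩ := h3 _ F.support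
    (fun m => algebraMap k (K3 k) (coeff m F) * (P ^ (m 0) * Q ^ (m 1)))
    (Finset.nonempty_iff_ne_empty.2 (by rwa [Ne, support_eq_empty])) hne (by
      intro m hm m' hm' hmm
      rw [hV m hm, hV m' hm'] at hmm
      have h4 : (((m 0 : ℕ) : ℤ) - ((m' 0 : ℕ) : ℤ)) • V P +
          (((m 1 : ℕ) : ℤ) - ((m' 1 : ℕ) : ℤ)) • V Q = 0 := by
        rw [sub_smul, sub_smul]
        have h5 := sub_eq_zero.2 hmm
        rw [← h5]
        abel
      obtain ⟨h5, h6⟩ := hind _ _ h4
      ext i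
      fin_cases i
      · show m 0 = m' 0
        omega
      · show m 1 = m' 1
        omega)
  rw [he]
  exact ⟨g1, _, _, g2.trans (hV m hm)⟩

theorem pf_VKP (hSUM : T_SUM) : T_VKP := by
  intro k _ τ e Λ _ _ _ V hV P Q hP hQ hind
  have h2 := (hSUM k τ e Λ V hV).2.1
  refine ⟨?_, ?_⟩
  · rw [algebraicIndependent_iff]
    intro F hF
    by_contra hne
    exact (vkp_val hSUM hV hP hQ hind F hne).1 hF
  · intro c hc hc0
    have hr : ({P, Q} : Set (K3 k)) = Set.range ![P, Q] := by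
      ext x
      simp only [Set.mem_insert_iff, Set.mem_singleton_iff, Set.mem_range]
      constructor
      · rintro (h | h)
        · exact ⟨0, h.symm⟩
        · exact ⟨1, h.symm⟩
      · rintro ⟨i, hi⟩
        fin_cases i
        · exact Or.inl hi.symm
        · exact Or.inr hi.symm
    rw [hr, IntermediateField.mem_adjoin_range_iff] at hc
    obtain ⟨F, G, hFG⟩ := hc
    have hF : F ≠ 0 := by
      rintro rfl
      rw [map_zero, zero_div] at hFG
      exact hc0 hFG
    have hG : G ≠ 0 := by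
      rintro rfl
      rw [map_zero, div_zero] at hFG
      exact hc0 hFG
    obtain ⟨f0, a, b, hab⟩ := vkp_val hSUM hV hP hQ hind F hF
    obtain ⟨g0, a', b', hab'⟩ := vkp_val hSUM hV hP hQ hind G hG
    refine ⟨a - a', b - b', ?_⟩
    rw [hFG, h2 _ _ f0 g0, hab, hab', sub_smul, sub_smul]
    abel

/-- a combination of the powers of `u` -/
theorem gnb_val (hSUM : T_SUM) (h : Vt τ e V) {u : K3 k} (hu : Gen e V u) (a : Fin e → K3 k)
    (ha : ∃ i, a i ≠ 0) :
    (∑ i, τ (a i) * u ^ (i : ℕ)) ≠ 0 ∧ ∃ i, a i ≠ 0 ∧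
      V (∑ i, τ (a i) * u ^ (i : ℕ)) = (e : ℤ) • V (a i) + ((i : ℕ) : ℤ) • V u := by
  classical
  obtain ⟨-, -, h3⟩ := hSUM k τ e Λ V h
  have hτ : ∀ x : K3 k, x ≠ 0 → τ x ≠ 0 := fun x hx => (map_ne_zero τ).2 hx
  have hs : ∑ i, τ (a i) * u ^ (i : ℕ) =
      ∑ i ∈ Finset.univ.filter (fun i => a i ≠ 0), τ (a i) * u ^ (i : ℕ) := by
    symm
    refine Finset.sum_filter_of_ne ?_
    intro i _ hi h0
    rw [h0, map_zero, zero_mul] at hi
    exact hi rfl
  have hV : ∀ i, a i ≠ 0 → V (τ (a i) * u ^ (i : ℕ)) =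
      (e : ℤ) • V (a i) + ((i : ℕ) : ℤ) • V u := by
    intro i hi
    rw [h.mul _ _ (hτ _ hi) (pow_ne_zero _ hu.ne), h.tau _ hi, vt_pow h hu.ne]
  obtain ⟨g1, i, hi, g2, -⟩ := h3 (Fin e) (Finset.univ.filter (fun i => a i ≠ 0))
    (fun i => τ (a i) * u ^ (i : ℕ)) (by
      obtain ⟨i, hi⟩ := ha
      exact ⟨i, by simp [hi]⟩)
    (by
      intro i hi
      exact mul_ne_zero (hτ _ (Finset.mem_filter.1 hi).2) (pow_ne_zero _ hu.ne))
    (by
      intro i hi j hj hij
      rw [hV i (Finset.mem_filter.1 hi).2, hV j (Finset.mem_filter.1 hj).2] at hij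
      have h4 : (((i : ℕ) : ℤ) - ((j : ℕ) : ℤ)) • V u = (e : ℤ) • (V (a j) - V (a i)) := by
        rw [sub_smul, smul_sub]
        have h5 := sub_eq_zero.2 hij
        rw [← sub_eq_zero, ← h5]
        abel
      have h5 := hu.ord _ _ h4
      have hi2 := i.isLt
      have hj2 := j.isLt
      have h6 : ((i : ℕ) : ℤ) - ((j : ℕ) : ℤ) = 0 := by
        refine Int.eq_zero_of_abs_lt_dvd h5 ?_
        rw [abs_lt]
        constructor <;> omega
      exact Fin.ext (by omega))
  rw [hs]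
  exact ⟨g1, i, (Finset.mem_filter.1 hi).2, g2.trans (hV i (Finset.mem_filter.1 hi).2)⟩

theorem pf_GNB (hSUM : T_SUM) : T_GNB := by
  classical
  intro k _ T τ e Λ _ _ _ V u hfld hV hu
  refine ⟨fun h => ?_, fun h a h0 ha => ?_⟩
  · have hex : ∃ a : Fin e → K3 k, h = ∑ i, τ (a i) * u ^ (i : ℕ) := by
      have hli : LinearIndependent τ.fieldRange (fun i : Fin e => u ^ (i : ℕ)) := by
        rw [Fintype.linearIndependent_iff]
        intro g hg i
        have h1 : ∀ i, ∃ a : K3 k, τ a = (g i : K3 k) := fun i => AlgHom.mem_fieldRange.1 (g i).2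
        choose a ha using h1
        by_contra hne
        have h2 : ∃ i, a i ≠ 0 := by
          refine ⟨i, fun h0 => hne ?_⟩
          have h3 := ha i
          rw [h0, map_zero] at h3
          exact Subtype.ext h3.symm
        refine (gnb_val hSUM hV hu a h2).1 ?_
        rw [← hg]
        refine Finset.sum_congr rfl fun j _ => ?_
        rw [ha j]
        rfl
      haveI : FiniteDimensional τ.fieldRange (K3 k) := by
        refine Module.finite_of_finrank_pos ?_
        rw [hfld.fin]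
        have := hfld.two
        omega
      have hspan := hli.span_eq_top_of_card_eq_finrank' (by
        rw [Fintype.card_fin]
        exact hfld.fin.symm)
      have hmem : h ∈ Submodule.span τ.fieldRange
          (Set.range (fun i : Fin e => u ^ (i : ℕ))) := by
        rw [hspan]
        exact Submodule.mem_top
      obtain ⟨c, hc⟩ := (Submodule.mem_span_range_iff_exists_fun _).1 hmem
      have h1 : ∀ i, ∃ a : K3 k, τ a = (c i : K3 k) := fun i => AlgHom.mem_fieldRange.1 (c i).2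
      choose a ha using h1
      refine ⟨a, ?_⟩
      rw [← hc]
      refine Finset.sum_congr rfl fun j _ => ?_
      rw [ha j]
      rfl
    obtain ⟨a, ha⟩ := hex
    refine ⟨a, ha, fun b hb => ?_⟩
    by_contra hne
    have h1 : ∃ i, (b i - a i) ≠ 0 := by
      by_contra hcon
      push Not at hcon
      exact hne (funext fun i => sub_eq_zero.1 (hcon i))
    refine (gnb_val hSUM hV hu (fun i => b i - a i) h1).1 ?_
    have h2 : ∀ i : Fin e, τ (b i - a i) * u ^ (i : ℕ) =
        τ (b i) * u ^ (i : ℕ) - τ (a i) * u ^ (i : ℕ) := fun i => by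
      rw [map_sub, sub_mul]
    simp only [h2]
    rw [Finset.sum_sub_distrib]
    have hb' : h = ∑ i, τ (b i) * u ^ (i : ℕ) := hb
    have ha' : h = ∑ i, τ (a i) * u ^ (i : ℕ) := ha
    rw [← hb', ← ha', sub_self]
  · have h1 : ∃ i, a i ≠ 0 := by
      by_contra hcon
      push Not at hcon
      apply h0
      rw [ha]
      exact Finset.sum_eq_zero fun i _ => by rw [hcon i, map_zero, zero_mul]
    obtain ⟨-, i, hi, hVi⟩ := gnb_val hSUM hV hu a h1
    exact ⟨i, hi, by rw [ha]; exact hVi⟩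

end Pool.Agent.H76.DEN
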